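import Mathlib
import Pool.Agent.Helper90.ZP.Almost

/-!
# `π` and `k` zeta values: relations of small height are rare

For every `k` and `d` the number of `k`-tuples of integers in `[2, N]` such that `π, ζ(s_1), …, ζ(s_k)` satisfy a
nontrivial polynomial relation of degree at most `d` and height at most `e ^ h` is at most `A h N ^ (k - 1)`, for all
`N` and all `h ≥ 1`: the proportion is `O(h / N)`. All polynomials are treated simultaneously; the bound is nontrivial
for heights up to `exp (c N)`. The same holds for very small values instead of relations.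

The proof (`Pool/Agent/Helper90/ZP/Almost.lean`): away from at most `(2 d + 1) ^ k` hyperplanes one term of the
polynomial in the numbers `ζ(s_i) - 1 ≈ 2 ^ (-s_i)` dominates; its coefficient is a polynomial in `π` with integer
coefficients and is bounded from below by a transcendence measure of `π`.
-/

set_option autoImplicit false

namespace Pool.Agent.Results.MP_a89d6d_nt.AlmostAllWithPi

/-- the point `(π, ζ(s_1), …, ζ(s_k))`; the coordinate `none` is `π` -/
noncomputable def point {k : ℕ} (s : Fin k → ℕ) : Option (Fin k) → ℝ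
  | none => Real.pi
  | some i => ∑' m : ℕ, 1 / ((m : ℝ) + 1) ^ s i

/-- **Almost all tuples.** For all `k`, `d` there is `A > 0` such that for all `N` and all real `h ≥ 1` at most
`A h N ^ (k - 1)` of the `k`-tuples of integers `2 ≤ s_i ≤ N` have a nonzero polynomial `P` in `k + 1` variables with
integer coefficients, of total degree at most `d` and with all coefficients at most `e ^ h` in absolute value, such
that `|P(π, ζ(s_1), …, ζ(s_k))| ≤ exp (-A (h + s_1 + ⋯ + s_k))`; for all the other tuples in particular
`P(π, ζ(s_1), …, ζ(s_k)) ≠ 0` for all these `P`. -/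
theorem result (k d : ℕ) : ∃ A : ℝ, 0 < A ∧ ∀ (N : ℕ) (h : ℝ), 1 ≤ h →
    (Set.ncard {s : Fin k → ℕ | (∀ i, 2 ≤ s i ∧ s i ≤ N) ∧
      ∃ P : MvPolynomial (Option (Fin k)) ℤ, P ≠ 0 ∧ P.totalDegree ≤ d ∧
        (∀ e, |((P.coeff e : ℤ) : ℝ)| ≤ Real.exp h) ∧
        |MvPolynomial.aeval (point s) P| ≤ Real.exp (-(A * (h + ∑ i, (s i : ℝ))))} : ℝ) ≤
      A * h * (N : ℝ) ^ (k - 1) := by
  have h1 : ∀ s : Fin k → ℕ, point s = Pool.Agent.Helper90.ZP.pt s := by
    intro s
    funext j
    cases j <;> rfl
  simp only [h1]
  exact Pool.Agent.Helper90.ZP.almost k d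

end Pool.Agent.Results.MP_a89d6d_nt.AlmostAllWithPi
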