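import Mathlib
import Pool.Agent.Helper90.ZP.Pairs

/-!
# `π` and two zeta values: all algebraic relations have exponential height, for all pairs

For every degree `d` there is a constant `C > 1` such that for all integers `s < t`, `s` large, a nontrivial
polynomial relation of degree at most `d` with integer coefficients between `π`, `ζ(s)` and `ζ(t)` has a coefficient
larger than `C ^ s`. There is no condition on the quotient `t / s`.

If `t / s` is close to one of finitely many rational numbers, the theorem follows from the estimate of
`Pool/Agent/Y760/PZ/Vec.lean` (helper760) for zeta values at arguments near `r n`, with coefficients in the span of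
numbers with a measure of linear independence, applied to the powers of `π`. Otherwise one term of the polynomial in
`ζ(s) - 1` and `ζ(t) - 1` dominates (`Pool/Agent/Helper90/ZP/Dom.lean`).
-/

set_option autoImplicit false

namespace Pool.Agent.Results.MP_a89d6d_nt.PairsWithPi

/-- the point `(π, ζ(s_1), …, ζ(s_k))`; the coordinate `none` is `π` -/
noncomputable def point {k : ℕ} (s : Fin k → ℕ) : Option (Fin k) → ℝ
  | none => Real.pi
  | some i => ∑' m : ℕ, 1 / ((m : ℝ) + 1) ^ s i

/-- **`π` and two zeta values.** For every `d` there are `B, C > 1` and `n0` such that for all integers `s`, `t` with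
`n0 ≤ s < t` and every nonzero polynomial `P` in three variables with integer coefficients, of total degree at most
`d` and with all coefficients at most `C ^ s` in absolute value, `|P(π, ζ(s), ζ(t))| > B ^ (-t)`. -/
theorem result (d : ℕ) : ∃ B C : ℝ, 1 < B ∧ 1 < C ∧ ∃ n0 : ℕ, ∀ s t : ℕ, n0 ≤ s → s < t →
    ∀ P : MvPolynomial (Option (Fin 2)) ℤ, P ≠ 0 → P.totalDegree ≤ d →
    (∀ e, |((P.coeff e : ℤ) : ℝ)| ≤ C ^ s) →
    (B ^ t)⁻¹ < |MvPolynomial.aeval (point ![s, t]) P| := by
  have h1 : ∀ s : Fin 2 → ℕ, point s = Pool.Agent.Helper90.ZP.pt s := by
    intro s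
    funext j
    cases j <;> rfl
  simp only [h1]
  exact Pool.Agent.Helper90.ZP.pairs d

end Pool.Agent.Results.MP_a89d6d_nt.PairsWithPi
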