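import Mathlib
import Pool.Agent.Helper90.ZP.Poly

/-!
# `π` and `k` zeta values at arguments near `r_i n`: all algebraic relations have exponential height

Let `r_1, …, r_k` be positive integers, for instance all equal to one. For all large `n` and all distinct integers
`s_1, …, s_k` with `|s_i - r_i n| ≤ ε n`, every nontrivial polynomial relation of degree at most `d` with integer
coefficients between `π, ζ(s_1), …, ζ(s_k)` has a coefficient larger than `C ^ n`; the values are even larger than
`B ^ (-n)`.

This is the estimate `Pool.Agent.Y760.PZ.zeta_v` (helper760) for polynomials in zeta values with coefficients in the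
span of numbers with a measure of linear independence, for the powers of `π` (transcendence measure of `π` in
`Pool/Agent/TH456/TM/`), with windows on both sides (`Pool/Agent/Helper90/ZP/Poly.lean`).
-/

set_option autoImplicit false

namespace Pool.Agent.Results.MP_a89d6d_nt.WindowsWithPi

/-- the point `(π, ζ(s_1), …, ζ(s_k))`; the coordinate `none` is `π` -/
noncomputable def point {k : ℕ} (s : Fin k → ℕ) : Option (Fin k) → ℝ
  | none => Real.pi
  | some i => ∑' m : ℕ, 1 / ((m : ℝ) + 1) ^ s i

/-- **`π` and `k` zeta values in short windows.** Let `r_1, …, r_k ≥ 1` be integers and `d` a degree. There are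
`ε > 0`, `B, C > 1` and `n0` such that for all `n ≥ n0`, all distinct integers `s_i` with `|s_i - r_i n| ≤ ε n` and
every nonzero polynomial `P` in `k + 1` variables with integer coefficients, of total degree at most `d` and with all
coefficients at most `C ^ n` in absolute value, `|P(π, ζ(s_1), …, ζ(s_k))| > B ^ (-n)`. -/
theorem result (k d : ℕ) (r : Fin k → ℕ) (hr : ∀ i, 1 ≤ r i) :
    ∃ ε B C : ℝ, 0 < ε ∧ 1 < B ∧ 1 < C ∧ ∃ n0 : ℕ, ∀ n : ℕ, n0 ≤ n → ∀ s : Fin k → ℕ,
      Function.Injective s → (∀ i, |(s i : ℝ) - r i * n| ≤ ε * n) →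
      ∀ P : MvPolynomial (Option (Fin k)) ℤ, P ≠ 0 → P.totalDegree ≤ d →
      (∀ e, |((P.coeff e : ℤ) : ℝ)| ≤ C ^ n) →
      (B ^ n)⁻¹ < |MvPolynomial.aeval (point s) P| := by
  have h1 : ∀ s : Fin k → ℕ, point s = Pool.Agent.Helper90.ZP.pt s := by
    intro s
    funext j
    cases j <;> rfl
  simp only [h1]
  exact Pool.Agent.Helper90.ZP.windows k d r hr

end Pool.Agent.Results.MP_a89d6d_nt.WindowsWithPi
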