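import Mathlib
import Pool.Agent.Helper90.ZP.Three

/-!
# `1, π ^ 2, ζ(3)` are independent over polynomials in two further zeta values

For every degree `d` there are constants `B, C > 1` such that for all integers `s < t`, `s` large, the numbers
`1, π ^ 2, ζ(3)` satisfy no nontrivial linear relation whose coefficients are polynomials in `ζ(s), ζ(t)` of degree at
most `d` with integer coefficients at most `C ^ s`; the linear form is even larger than `B ^ (-t)`. For `k` further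
zeta values the same holds for all `k`-tuples of arguments up to `N` outside a set of at most `A h N ^ (k - 1)` ones.

The proof combines a measure of linear independence of `1, π ^ 2, ζ(3)` (`Pool/Agent/TH647/NR/Zeta.lean`, helper647)
with the estimates of `Pool/Agent/Y760/PZ/Vec.lean` (helper760) near rational directions and with the domination of
one term in all the other directions (`Pool/Agent/Helper90/ZP`).
-/

set_option autoImplicit false

namespace Pool.Agent.Results.MP_a89d6d_nt.WithZetaThree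

/-- the zeta value `ζ(s)`, as a sum -/
noncomputable def zeta (s : ℕ) : ℝ := ∑' m : ℕ, 1 / ((m : ℝ) + 1) ^ s

/-- `P(ζ(s_1), …, ζ(s_k))` -/
noncomputable def at_zeta {k : ℕ} (s : Fin k → ℕ) (P : MvPolynomial (Fin k) ℤ) : ℝ :=
  MvPolynomial.aeval (fun i => zeta (s i)) P

/-- **`1, π ^ 2, ζ(3)` over polynomials in zeta values.** (1) For every `d` there are `B, C > 1` and `n0` such that for
all integers `n0 ≤ s < t` and all `P, Q, R ∈ ℤ[X, Y]`, not all zero, of total degree at most `d` and with all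
coefficients at most `C ^ s` in absolute value,
`|P(ζ(s), ζ(t)) + π ^ 2 Q(ζ(s), ζ(t)) + ζ(3) R(ζ(s), ζ(t))| > B ^ (-t)`. (2) For all `k`, `d` there is `A > 0` such that
for all `N` and all real `h ≥ 1` at most `A h N ^ (k - 1)` of the `k`-tuples of integers `2 ≤ s_i ≤ N` have
`P, Q, R ∈ ℤ[X_1, …, X_k]`, not all zero, of total degree at most `d` and with all coefficients at most `e ^ h` in
absolute value, with `|P(ζ(s_1), …) + π ^ 2 Q(ζ(s_1), …) + ζ(3) R(ζ(s_1), …)| ≤ exp (-A (h + s_1 + ⋯ + s_k))`. -/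
theorem result :
    (∀ d : ℕ, ∃ B C : ℝ, 1 < B ∧ 1 < C ∧ ∃ n0 : ℕ, ∀ s t : ℕ, n0 ≤ s → s < t →
      ∀ P Q R : MvPolynomial (Fin 2) ℤ, (P ≠ 0 ∨ Q ≠ 0 ∨ R ≠ 0) →
      P.totalDegree ≤ d → Q.totalDegree ≤ d → R.totalDegree ≤ d →
      (∀ e, |((P.coeff e : ℤ) : ℝ)| ≤ C ^ s ∧ |((Q.coeff e : ℤ) : ℝ)| ≤ C ^ s ∧
        |((R.coeff e : ℤ) : ℝ)| ≤ C ^ s) →
      (B ^ t)⁻¹ < |at_zeta ![s, t] P + Real.pi ^ 2 * at_zeta ![s, t] Q + zeta 3 * at_zeta ![s, t] R|) ∧
    (∀ k d : ℕ, ∃ A : ℝ, 0 < A ∧ ∀ (N : ℕ) (h : ℝ), 1 ≤ h →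
      (Set.ncard {s : Fin k → ℕ | (∀ i, 2 ≤ s i ∧ s i ≤ N) ∧
        ∃ P Q R : MvPolynomial (Fin k) ℤ, (P ≠ 0 ∨ Q ≠ 0 ∨ R ≠ 0) ∧
          (P.totalDegree ≤ d ∧ Q.totalDegree ≤ d ∧ R.totalDegree ≤ d) ∧
          (∀ e, |((P.coeff e : ℤ) : ℝ)| ≤ Real.exp h ∧ |((Q.coeff e : ℤ) : ℝ)| ≤ Real.exp h ∧
            |((R.coeff e : ℤ) : ℝ)| ≤ Real.exp h) ∧
          |at_zeta s P + Real.pi ^ 2 * at_zeta s Q + zeta 3 * at_zeta s R| ≤
            Real.exp (-(A * (h + ∑ i, (s i : ℝ))))} : ℝ) ≤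
        A * h * (N : ℝ) ^ (k - 1)) := by
  have key : ∀ {k : ℕ} (s : Fin k → ℕ) (P Q R : MvPolynomial (Fin k) ℤ),
      at_zeta s P + Real.pi ^ 2 * at_zeta s Q + zeta 3 * at_zeta s R =
        ∑ j, Pool.Agent.Helper90.ZP.th3 j * MvPolynomial.aeval
          (fun i => Pool.Agent.Helper90.ZP.zt (s i)) ((![P, Q, R] : Fin 3 → _) j) := by
    intro k s P Q R
    rw [Fin.sum_univ_three]
    simp only [Pool.Agent.Helper90.ZP.th3, Matrix.cons_val_zero, Matrix.cons_val_one,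
      Matrix.cons_val_two, Matrix.head_cons, Matrix.tail_cons, one_mul]
    rfl
  have hne : ∀ {k : ℕ} (P Q R : MvPolynomial (Fin k) ℤ), (P ≠ 0 ∨ Q ≠ 0 ∨ R ≠ 0) →
      (![P, Q, R] : Fin 3 → MvPolynomial (Fin k) ℤ) ≠ 0 := by
    intro k P Q R h h0
    rcases h with h | h | h
    · exact h (congrFun h0 0)
    · exact h (congrFun h0 1)
    · exact h (congrFun h0 2)
  refine ⟨fun d => ?_, fun k d => ?_⟩
  · obtain ⟨B, C, hB, hC, n0, h⟩ := Pool.Agent.Helper90.ZP.pairs3 d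
    refine ⟨B, C, hB, hC, n0, fun s t hs hst P Q R hP hPd hQd hRd hc => ?_⟩
    rw [key]
    refine h s t hs hst _ (hne P Q R hP) (fun j => ?_) (fun j e => ?_)
    · fin_cases j
      exacts [hPd, hQd, hRd]
    · fin_cases j
      exacts [(hc e).1, (hc e).2.1, (hc e).2.2]
  · obtain ⟨A, hA, h0⟩ := Pool.Agent.Helper90.ZP.almost3 k d
    refine ⟨A, hA, fun N h hh => le_trans ?_ (h0 N h hh)⟩
    have hfin : Set.Finite {s : Fin k → ℕ | (∀ i, 2 ≤ s i ∧ s i ≤ N) ∧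
        ∃ P : Fin 3 → MvPolynomial (Fin k) ℤ, P ≠ 0 ∧ (∀ j, (P j).totalDegree ≤ d) ∧
          (∀ j e, |(((P j).coeff e : ℤ) : ℝ)| ≤ Real.exp h) ∧
          |∑ j, Pool.Agent.Helper90.ZP.th3 j * MvPolynomial.aeval
            (fun i => Pool.Agent.Helper90.ZP.zt (s i)) (P j)| ≤
          Real.exp (-(A * (h + ∑ i, (s i : ℝ))))} := by
      refine Set.Finite.subset (Finset.finite_toSet
        (Fintype.piFinset fun _ : Fin k => Finset.Icc 2 N)) fun s hs => ?_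
      rw [Finset.mem_coe, Fintype.mem_piFinset]
      exact fun i => by rw [Finset.mem_Icc]; exact hs.1 i
    have h1 := Set.ncard_le_ncard (s := {s : Fin k → ℕ | (∀ i, 2 ≤ s i ∧ s i ≤ N) ∧
        ∃ P Q R : MvPolynomial (Fin k) ℤ, (P ≠ 0 ∨ Q ≠ 0 ∨ R ≠ 0) ∧
          (P.totalDegree ≤ d ∧ Q.totalDegree ≤ d ∧ R.totalDegree ≤ d) ∧
          (∀ e, |((P.coeff e : ℤ) : ℝ)| ≤ Real.exp h ∧ |((Q.coeff e : ℤ) : ℝ)| ≤ Real.exp h ∧
            |((R.coeff e : ℤ) : ℝ)| ≤ Real.exp h) ∧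
          |at_zeta s P + Real.pi ^ 2 * at_zeta s Q + zeta 3 * at_zeta s R| ≤
            Real.exp (-(A * (h + ∑ i, (s i : ℝ))))}) (by
      rintro s ⟨hs, P, Q, R, hP, ⟨hPd, hQd, hRd⟩, hc, hsmall⟩
      refine ⟨hs, ![P, Q, R], hne P Q R hP, fun j => ?_, fun j e => ?_, ?_⟩
      · fin_cases j
        exacts [hPd, hQd, hRd]
      · fin_cases j
        exacts [(hc e).1, (hc e).2.1, (hc e).2.2]
      · rwa [← key]) hfin
    exact_mod_cast h1

end Pool.Agent.Results.MP_a89d6d_nt.WithZetaThree
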